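import Pool.Agent.PRT.StmtsA

/-!
# PRT, row CRS: crossing of a line and a path
-/

set_option autoImplicit false

namespace Pool.Agent.PRT.H27

open Set MeasureTheory

theorem ip_sub (w a b : E) : ip w (a - b) = ip w a - ip w b := by
  unfold ip
  simp only [Prod.fst_sub, Prod.snd_sub]
  ring

theorem cr_sub (w a b : E) : cr w (a - b) = cr w a - cr w b := by
  unfold cr
  simp only [Prod.fst_sub, Prod.snd_sub]
  ring

/-- **CRS** -/
theorem crs (h : WndStmt) : CrsStmt := by
  intro L σ w T hL hσ hT h1 h2 h3 h4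
  have hw : 0 < w.1 ^ 2 + w.2 ^ 2 := by
    have h0 := h1 0 ⟨le_refl _, zero_le_one⟩
    by_contra hcon
    have hz : w.1 ^ 2 + w.2 ^ 2 = 0 := le_antisymm (not_lt.mp hcon) (by positivity)
    have ha : w.1 = 0 := by nlinarith [sq_nonneg w.1, sq_nonneg w.2]
    have hb : w.2 = 0 := by nlinarith [sq_nonneg w.1, sq_nonneg w.2]
    unfold ip at h0
    rw [ha, hb] at h0
    simp at h0
  set f : E → E := fun p => (ip w (L (T * (2 * p.1 - 1)) - σ p.2),
    -cr w (L (T * (2 * p.1 - 1)) - σ p.2)) with hf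
  have hLc : Continuous fun p : E => L (T * (2 * p.1 - 1)) :=
    hL.comp (by fun_prop)
  have hsc : Continuous fun p : E => σ p.2 := hσ.comp continuous_snd
  have hfc : Continuous f := by
    rw [hf]
    unfold ip cr
    simp only [Prod.fst_sub, Prod.snd_sub]
    fun_prop
  have hmem : ∀ s ∈ Icc (0 : ℝ) 1, T * (2 * s - 1) ∈ Icc (-T) T := by
    rintro s ⟨hs0, hs1⟩
    constructor <;> nlinarith
  obtain ⟨s, hs, t, ht, hst⟩ := h f hfc
    (by
      intro t ht
      show ip w (L (T * (2 * 0 - 1)) - σ t) < 0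
      have e : T * (2 * 0 - 1) = -T := by ring
      rw [e, ip_sub]
      linarith [h1 t ht])
    (by
      intro t ht
      show 0 < ip w (L (T * (2 * 1 - 1)) - σ t)
      have e : T * (2 * 1 - 1) = T := by ring
      rw [e, ip_sub]
      linarith [h2 t ht])
    (by
      intro s hs
      show -cr w (L (T * (2 * s - 1)) - σ 0) < 0
      rw [cr_sub]
      linarith [h3 _ (hmem s hs)])
    (by
      intro s hs
      show 0 < -cr w (L (T * (2 * s - 1)) - σ 1)
      rw [cr_sub]
      linarith [h4 _ (hmem s hs)])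
  refine ⟨T * (2 * s - 1), hmem s hs, t, ht, ?_⟩
  have e1 : ip w (L (T * (2 * s - 1)) - σ t) = 0 := congrArg Prod.fst hst
  have e2 : -cr w (L (T * (2 * s - 1)) - σ t) = 0 := congrArg Prod.snd hst
  generalize hu : L (T * (2 * s - 1)) - σ t = u at e1 e2
  unfold ip at e1
  unfold cr at e2
  have k1 : (w.1 ^ 2 + w.2 ^ 2) * u.1 = 0 := by linear_combination w.1 * e1 + w.2 * e2
  have k2 : (w.1 ^ 2 + w.2 ^ 2) * u.2 = 0 := by linear_combination w.2 * e1 - w.1 * e2
  have m1 : u.1 = 0 := by
    rcases mul_eq_zero.mp k1 with h | h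
    · exact absurd h hw.ne'
    · exact h
  have m2 : u.2 = 0 := by
    rcases mul_eq_zero.mp k2 with h | h
    · exact absurd h hw.ne'
    · exact h
  have : u = 0 := Prod.ext m1 m2
  rw [this] at hu
  exact sub_eq_zero.mp hu

end Pool.Agent.PRT.H27
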