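import Pool.Agent.PRT.StmtsD
import Pool.Agent.PRT.Kit

/-!
# PRT, row HAT: the Birkhoff average
-/

set_option autoImplicit false

namespace Pool.Agent.PRT.H27H

open Set MeasureTheory
open scoped ContDiff

theorem bm_const0 (k : ℕ) (a : E) : Bm k 0 (fun _ : E => a) := by
  intro i h1 _ z
  rw [iteratedFDeriv_const_of_ne (by omega)]
  simp

theorem bm_sum (s : Finset ℕ) {k : ℕ} {C : ℕ → ℝ} {f : ℕ → E → E}
    (hf : ∀ i ∈ s, Bm k (C i) (f i)) (hsf : ∀ i ∈ s, ContDiff ℝ ∞ (f i)) :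
    Bm k (∑ i ∈ s, C i) (fun z => ∑ i ∈ s, f i z) := by
  classical
  induction s using Finset.induction_on with
  | empty =>
    simpa using bm_const0 k 0
  | insert a s ha ih =>
    simp only [Finset.sum_insert ha]
    exact (hf a (Finset.mem_insert_self _ _)).add
      (ih (fun i hi => hf i (Finset.mem_insert_of_mem hi))
        (fun i hi => hsf i (Finset.mem_insert_of_mem hi)))
      (hsf a (Finset.mem_insert_self _ _))
      (ContDiff.sum fun i hi => hsf i (Finset.mem_insert_of_mem hi))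

theorem iter_sm {F : E → E} (hF : ContDiff ℝ ∞ F) : ∀ m : ℕ, ContDiff ℝ ∞ (F^[m]) := by
  intro m
  induction m with
  | zero => exact contDiff_id
  | succ m ih => exact ih.comp hF

theorem iter_eqv {F : E → E} (hF : Eqv F) : ∀ m : ℕ, Eqv (F^[m]) := by
  intro m
  induction m with
  | zero =>
    intro a b z
    rfl
  | succ m ih =>
    intro a b z
    rw [Function.iterate_succ_apply, Function.iterate_succ_apply, hF, ih]

/-- the average -/
noncomputable def HH (F : E → E) (w : E) (M : ℕ) (z : E) : E :=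
  (M : ℝ)⁻¹ • ∑ m ∈ Finset.range M, (F^[m] z - (m : ℝ) • w)

theorem HH_F (F : E → E) (w : E) (M : ℕ) (hM : 1 ≤ M) (z : E) :
    HH F w M (F z) - HH F w M z - w = (M : ℝ)⁻¹ • (F^[M] z - z - (M : ℝ) • w) := by
  have hM0 : (M : ℝ) ≠ 0 := by
    have : M ≠ 0 := by omega
    exact_mod_cast this
  unfold HH
  rw [← smul_sub, ← Finset.sum_sub_distrib]
  have e1 : ∀ m ∈ Finset.range M, (F^[m] (F z) - (m : ℝ) • w) - (F^[m] z - (m : ℝ) • w) =
      F^[m + 1] z - F^[m] z := by
    intro m _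
    rw [Function.iterate_succ_apply]
    abel
  rw [Finset.sum_congr rfl e1, Finset.sum_range_sub (fun m => F^[m] z) M]
  rw [smul_sub (M : ℝ)⁻¹ (F^[M] z - z) ((M : ℝ) • w), smul_smul, inv_mul_cancel₀ hM0, one_smul]
  rfl

theorem HH_g (F : E → E) (hF : Eqv F) (w p : E) (hp : ∃ a b : ℤ, p = iv a b) (M q : ℕ)
    (hM : 1 ≤ M) (z : E) :
    HH F w M (F^[q] z - p) - HH F w M z - ((q : ℝ) • w - p) =
      (M : ℝ)⁻¹ • ∑ i ∈ Finset.range q, (F^[M] (F^[i] z) - F^[i] z - (M : ℝ) • w) := by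
  have hM0 : (M : ℝ) ≠ 0 := by
    have : M ≠ 0 := by omega
    exact_mod_cast this
  have hg : ∀ m : ℕ, F^[m] (F^[q] z - p) = F^[q + m] z - p := by
    intro m
    obtain ⟨a, b, rfl⟩ := hp
    have e : F^[q] z - iv a b = F^[q] z + iv (-a) (-b) := by
      unfold iv
      ext <;> simp [sub_eq_add_neg]
    have e' : F^[q + m] z - iv a b = F^[q + m] z + iv (-a) (-b) := by
      unfold iv
      ext <;> simp [sub_eq_add_neg]
    rw [e, e', iter_eqv hF m, ← Function.iterate_add_apply, Nat.add_comm]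
  have hadd : ∑ m ∈ Finset.range M, F^[q + m] z - ∑ m ∈ Finset.range M, F^[m] z =
      ∑ i ∈ Finset.range q, (F^[M + i] z - F^[i] z) := by
    have h1 := Finset.sum_range_add (fun m => F^[m] z) q M
    have h2 := Finset.sum_range_add (fun m => F^[m] z) M q
    rw [Nat.add_comm q M, h2] at h1
    rw [Finset.sum_sub_distrib]
    have h3 : ∑ m ∈ Finset.range M, F^[m] z + ∑ i ∈ Finset.range q, F^[M + i] z =
        ∑ i ∈ Finset.range q, F^[i] z + ∑ m ∈ Finset.range M, F^[q + m] z := h1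
    have h4 : ∑ m ∈ Finset.range M, F^[q + m] z = ∑ m ∈ Finset.range M, F^[m] z +
        ∑ i ∈ Finset.range q, F^[M + i] z - ∑ i ∈ Finset.range q, F^[i] z := by
      rw [h3]
      abel
    rw [h4]
    abel
  have key : HH F w M (F^[q] z - p) - HH F w M z =
      (M : ℝ)⁻¹ • ∑ i ∈ Finset.range q, (F^[M + i] z - F^[i] z) - p := by
    unfold HH
    rw [← smul_sub, ← Finset.sum_sub_distrib]
    have e1 : ∀ m ∈ Finset.range M, (F^[m] (F^[q] z - p) - (m : ℝ) • w) -
        (F^[m] z - (m : ℝ) • w) = (F^[q + m] z - F^[m] z) - p := by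
      intro m _
      rw [hg m]
      abel
    rw [Finset.sum_congr rfl e1, Finset.sum_sub_distrib, Finset.sum_sub_distrib, hadd,
      Finset.sum_const, Finset.card_range, smul_sub, ← Nat.cast_smul_eq_nsmul ℝ M p, smul_smul,
      inv_mul_cancel₀ hM0, one_smul]
  rw [key]
  have e2 : ∑ i ∈ Finset.range q, (F^[M] (F^[i] z) - F^[i] z - (M : ℝ) • w) =
      ∑ i ∈ Finset.range q, (F^[M + i] z - F^[i] z) - (q : ℝ) • ((M : ℝ) • w) := by
    have e3 : ∀ i ∈ Finset.range q, F^[M] (F^[i] z) - F^[i] z - (M : ℝ) • w =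
        (F^[M + i] z - F^[i] z) - (M : ℝ) • w := by
      intro i _
      rw [← Function.iterate_add_apply]
    rw [Finset.sum_congr rfl e3, Finset.sum_sub_distrib (fun i => F^[M + i] z - F^[i] z),
      Finset.sum_const, Finset.card_range, ← Nat.cast_smul_eq_nsmul ℝ q]
  rw [e2, smul_sub, smul_smul, smul_smul]
  have e4 : (M : ℝ)⁻¹ * ((q : ℝ) * (M : ℝ)) = q := by
    field_simp
  have e5 : (M : ℝ)⁻¹ * (q : ℝ) * (M : ℝ) = q := by
    field_simp
  first
    | rw [e4]
    | (rw [← mul_assoc, e5])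
    | rw [e5]
  abel

/-- **HAT** -/
theorem hat (_h : GlfStmt) : HatStmt := by
  intro k c0
  refine ⟨c0, 1, ?_⟩
  intro F w C q p l N R n _ hG hn hnC hB
  have lf := hG.lf
  have hq := hG.q1
  have hl := hG.l1
  have hC : 0 ≤ C := by
    have := lf.dev 0 0
    simp only [Function.iterate_zero, id_eq, sub_self, Nat.cast_zero, zero_smul, norm_zero] at this
    exact this
  set M : ℕ := q * n with hMdef
  have hM : 1 ≤ M := Nat.mul_pos hq hn
  have hMp : (0 : ℝ) < M := by exact_mod_cast hM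
  set ε : ℝ := ‖(q : ℝ) • w - p‖ with hε
  have hε0 : 0 ≤ ε := norm_nonneg _
  have hnM : (n : ℝ) ≤ M := by
    have : n ≤ M := Nat.le_mul_of_pos_left n hq
    exact_mod_cast this
  have h16 : 16 * (C + 1) ≤ M * ε := hnC.trans (mul_le_mul_of_nonneg_right hnM hε0)
  have hlc : (1 : ℝ) ≤ l ^ c0 := one_le_pow₀ hl
  have sm := iter_sm lf.sm
  have hBm : ∀ m < M, Bm k (l ^ c0) (F^[m]) := by
    intro m hm
    have h1 : m / q ≤ n := (Nat.div_lt_of_lt_mul hm).le
    have h2 : m % q ≤ q := (Nat.mod_lt m hq).le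
    have := hB (m / q) h1 (m % q) h2
    rwa [Nat.div_add_mod] at this
  have hBM : Bm k (l ^ c0) (F^[M]) := by
    have := hB n le_rfl 0 (Nat.zero_le _)
    rwa [Nat.add_zero] at this
  refine ⟨HH F w M, ?_, ?_, ?_, ?_, ?_⟩
  · unfold HH
    exact ContDiff.const_smul _ (ContDiff.sum fun m _ => (sm m).sub contDiff_const)
  · intro a b z
    unfold HH
    have e : ∀ m ∈ Finset.range M, F^[m] (z + iv a b) - (m : ℝ) • w =
        (F^[m] z - (m : ℝ) • w) + iv a b := by
      intro m _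
      rw [iter_eqv lf.eqv m]
      abel
    rw [Finset.sum_congr rfl e, Finset.sum_add_distrib, Finset.sum_const, Finset.card_range,
      smul_add, ← Nat.cast_smul_eq_nsmul ℝ M, smul_smul, inv_mul_cancel₀ hMp.ne', one_smul]
  · have h1 : Bm k (∑ m ∈ Finset.range M, (l ^ c0 + 0))
        (fun z => ∑ m ∈ Finset.range M, (F^[m] z - (m : ℝ) • w)) := by
      refine bm_sum (Finset.range M) (C := fun _ => l ^ c0 + 0)
        (f := fun m z => F^[m] z - (m : ℝ) • w) ?_ ?_
      · intro m hm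
        exact (hBm m (Finset.mem_range.mp hm)).sub (bm_const0 k _) (sm m) contDiff_const
      · intro m _
        exact (sm m).sub contDiff_const
    have h2 := h1.const_smul (ContDiff.sum fun m _ => (sm m).sub contDiff_const) (M : ℝ)⁻¹
    refine h2.mono le_rfl (le_of_eq ?_)
    rw [Finset.sum_const, Finset.card_range, nsmul_eq_mul, add_zero, abs_of_pos (inv_pos.mpr hMp),
      ← mul_assoc, inv_mul_cancel₀ hMp.ne', one_mul]
  · have e : (fun z => HH F w M (F z) - HH F w M z - w) =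
        fun z => (M : ℝ)⁻¹ • (F^[M] z - z - (M : ℝ) • w) := by
      funext z
      exact HH_F F w M hM z
    rw [e, bd_iff]
    constructor
    · intro z
      rw [norm_smul, Real.norm_eq_abs, abs_of_pos (inv_pos.mpr hMp)]
      have h1 := lf.dev M z
      calc (M : ℝ)⁻¹ * ‖F^[M] z - z - (M : ℝ) • w‖ ≤ (M : ℝ)⁻¹ * C :=
            mul_le_mul_of_nonneg_left h1 (inv_pos.mpr hMp).le
        _ ≤ (M : ℝ)⁻¹ * (M * ε) := mul_le_mul_of_nonneg_left (by linarith) (inv_pos.mpr hMp).le
        _ = ε := by rw [← mul_assoc, inv_mul_cancel₀ hMp.ne', one_mul]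
        _ ≤ ε * l ^ c0 := le_mul_of_one_le_right hε0 hlc
    · have h1 : Bm k (l ^ c0 + 1 + 0) (fun z => F^[M] z - z - (M : ℝ) • w) :=
        (hBM.sub (bm_id k) (sm M) contDiff_id).sub (bm_const0 k _) ((sm M).sub contDiff_id)
          contDiff_const
      have h2 := h1.const_smul (((sm M).sub contDiff_id).sub contDiff_const) (M : ℝ)⁻¹
      refine h2.mono le_rfl ?_
      rw [abs_of_pos (inv_pos.mpr hMp), add_zero]
      have h3 : (M : ℝ)⁻¹ ≤ ε / 16 := by
        rw [inv_le_iff_one_le_mul₀ hMp]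
        nlinarith
      calc (M : ℝ)⁻¹ * (l ^ c0 + 1) ≤ ε / 16 * (2 * l ^ c0) :=
            mul_le_mul h3 (by linarith) (by positivity) (by positivity)
        _ ≤ ε * l ^ c0 := by
            have : 0 ≤ ε * l ^ c0 := by positivity
            linarith
  · intro z
    rw [HH_g F lf.eqv w p hG.pz M q hM z, norm_smul, Real.norm_eq_abs,
      abs_of_pos (inv_pos.mpr hMp)]
    have h1 : ‖∑ i ∈ Finset.range q, (F^[M] (F^[i] z) - F^[i] z - (M : ℝ) • w)‖ ≤ q * C := by
      refine (norm_sum_le _ _).trans ?_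
      calc ∑ i ∈ Finset.range q, ‖F^[M] (F^[i] z) - F^[i] z - (M : ℝ) • w‖
          ≤ ∑ _i ∈ Finset.range q, C := Finset.sum_le_sum fun i _ => lf.dev M (F^[i] z)
        _ = q * C := by rw [Finset.sum_const, Finset.card_range, nsmul_eq_mul]
    have h2 : (q : ℝ) * C ≤ M * (ε / 16) := by
      have e : (M : ℝ) = q * n := by
        rw [hMdef]
        push_cast
        rfl
      rw [e]
      have hq0 : (0 : ℝ) ≤ q := Nat.cast_nonneg q
      have h3 : C ≤ n * ε / 16 := by linarith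
      calc (q : ℝ) * C ≤ q * (n * ε / 16) := mul_le_mul_of_nonneg_left h3 hq0
        _ = q * n * (ε / 16) := by ring
    calc (M : ℝ)⁻¹ * ‖∑ i ∈ Finset.range q, (F^[M] (F^[i] z) - F^[i] z - (M : ℝ) • w)‖
        ≤ (M : ℝ)⁻¹ * (M * (ε / 16)) :=
          mul_le_mul_of_nonneg_left (h1.trans h2) (inv_pos.mpr hMp).le
      _ = ε / 16 := by rw [← mul_assoc, inv_mul_cancel₀ hMp.ne', one_mul]

end Pool.Agent.PRT.H27H
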